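import Mathlib

set_option autoImplicit false

namespace Pool.Agent.H47.CP

/-- `C_p(Z)`: the continuous real functions on `Z` with the topology of pointwise convergence (the
subspace topology of the product `Z → ℝ`). -/
abbrev Cp (Z : Type) [TopologicalSpace Z] : Type := {f : Z → ℝ // Continuous f}

/-- `e` is linear. -/
def IsLin {X Y : Type} [TopologicalSpace X] [TopologicalSpace Y] (e : Cp X → Cp Y) : Prop :=
  ∀ (a b : ℝ) (f g h : Cp X), (∀ x, h.1 x = a * f.1 x + b * g.1 x) →
    ∀ y, (e h).1 y = a * (e f).1 y + b * (e g).1 y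

end Pool.Agent.H47.CP
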