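import Mathlib
import Pool.Agent.H47.CP.Defs
import Pool.Agent.H60.CP.CPA

set_option autoImplicit false

namespace Pool.Agent.H47.CP

/-- the zero function -/
noncomputable def zeroF (D : Type) [TopologicalSpace D] : Cp (OnePoint D) :=
  ⟨fun _ => 0, continuous_const⟩

open Classical in
/-- the indicator function of the isolated point `a` -/
noncomputable def delta {D : Type} [TopologicalSpace D] [DiscreteTopology D] (a : D) :
    Cp (OnePoint D) :=
  ⟨fun x => if x = (a : OnePoint D) then 1 else 0, by
    have hopen : IsOpen ({(a : OnePoint D)} : Set (OnePoint D)) := by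
      have := (OnePoint.isOpenEmbedding_coe (X := D)).isOpenMap {a} (isOpen_discrete _)
      simpa using this
    have hcl : IsClopen ({(a : OnePoint D)} : Set (OnePoint D)) := ⟨isClosed_singleton, hopen⟩
    have h2 : Continuous (Set.indicator ({(a : OnePoint D)} : Set (OnePoint D)) (fun _ => (1 : ℝ))) :=
      hcl.continuous_indicator continuous_const
    have h3 : (fun x : OnePoint D => if x = (a : OnePoint D) then (1:ℝ) else 0) =
        Set.indicator ({(a : OnePoint D)} : Set (OnePoint D)) (fun _ => (1 : ℝ)) := by
      funext x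
      by_cases hx : x = (a : OnePoint D)
      · simp [hx]
      · simp [hx]
    rw [h3]
    exact h2⟩

theorem tendsto_delta {D : Type} [TopologicalSpace D] [DiscreteTopology D] :
    Filter.Tendsto (fun a : D => delta a) Filter.cofinite (nhds (zeroF D)) := by
  rw [tendsto_subtype_rng, tendsto_pi_nhds]
  intro x
  have : (fun a : D => (delta a).1 x) =ᶠ[Filter.cofinite] (fun _ => (0:ℝ)) := by
    have hfin : ({a : D | (a : OnePoint D) = x}).Finite := by
      apply Set.Subsingleton.finite
      intro a ha b hb
      exact OnePoint.coe_injective (ha.trans hb.symm)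
    filter_upwards [hfin.compl_mem_cofinite] with a ha
    have hne : ¬ x = (a : OnePoint D) := fun h => ha h.symm
    simp [delta, hne]
  exact (Filter.tendsto_congr' this).2 tendsto_const_nhds

theorem cellular_of_injection {Y : Type} [TopologicalSpace Y] [CompactSpace Y] [T2Space Y]
    {D : Type} [TopologicalSpace D] [DiscreteTopology D]
    (hD : Cardinal.aleph0 < (Cardinal.mk D).ord.cof)
    (e : Cp (OnePoint D) → Cp Y) (he : Continuous e) (hinj : Function.Injective e) :
    ∃ V : D → Set Y, (∀ a, IsOpen (V a)) ∧ (∀ a, (V a).Nonempty) ∧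
      Pairwise (fun a b => Disjoint (V a) (V b)) := by
  classical
  -- the functions
  set g : D → Y → ℝ := fun a y => |(e (delta a)).1 y - (e (zeroF D)).1 y| with hg
  have hgc : ∀ a, Continuous (g a) := fun a =>
    ((e (delta a)).2.sub (e (zeroF D)).2).abs
  have hfin : ∀ (y : Y) (ε : ℝ), 0 < ε → {a | ε < g a y}.Finite := by
    intro y ε hε
    have h1 : Filter.Tendsto (fun a : D => e (delta a)) Filter.cofinite
        (nhds (e (zeroF D))) := (he.tendsto _).comp tendsto_delta
    rw [tendsto_subtype_rng, tendsto_pi_nhds] at h1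
    have h2 := h1 y
    rw [Metric.tendsto_nhds] at h2
    have h3 := h2 ε hε
    rw [Filter.eventually_cofinite] at h3
    refine h3.subset ?_
    intro a ha
    simp only [Set.mem_ofPred_eq, not_lt, Real.dist_eq]
    exact le_of_lt ha
  have hne : ∀ a : D, ∃ (n : ℕ) (y : Y), 1 / ((n : ℝ) + 1) < g a y := by
    intro a
    have hd : delta a ≠ zeroF D := by
      intro h
      have := congrFun (congrArg Subtype.val h) (a : OnePoint D)
      simp [delta, zeroF] at this
    have he' : e (delta a) ≠ e (zeroF D) := fun h => hd (hinj h)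
    have : ∃ y, (e (delta a)).1 y ≠ (e (zeroF D)).1 y := by
      by_contra hcon
      push Not at hcon
      exact he' (Subtype.ext (funext hcon))
    obtain ⟨y, hy⟩ := this
    have hpos : 0 < g a y := abs_pos.2 (sub_ne_zero.2 hy)
    obtain ⟨n, hn⟩ := exists_nat_one_div_lt hpos
    exact ⟨n, y, hn⟩
  choose N yy hN using hne
  have hinf : Cardinal.aleph0 ≤ Cardinal.mk D := by
    by_contra hcon
    push Not at hcon
    have : (Cardinal.mk D).ord.cof ≤ Cardinal.mk D := Ordinal.cof_ord_le _
    exact absurd (hD.trans_le this) (not_lt.2 hcon.le)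
  obtain ⟨n, hn⟩ := Cardinal.infinite_pigeonhole N hinf (by simpa using hD)
  -- fibre
  set D' : Set D := N ⁻¹' {n} with hD'
  have hcard : Cardinal.mk D' = Cardinal.mk D := hn
  have hcofle : (Cardinal.mk D).ord.cof ≤ Cardinal.mk D := Ordinal.cof_ord_le _
  obtain ⟨M, W, hM, hW, hdis⟩ := disjoint_of_pointFinite (Y := Y) (D := D')
    (fun a => {y | 1 / ((n : ℝ) + 1) < g a.1 y})
    (fun a => isOpen_lt continuous_const (hgc a.1))
    (fun a => ⟨yy a.1, by
      have h1 := hN a.1
      have h2 : N a.1 = n := a.2
      rw [h2] at h1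
      exact h1⟩)
    (fun y => by
      have := hfin y (1 / ((n : ℝ) + 1)) Nat.one_div_pos_of_nat
      refine Set.Finite.of_finite_image (f := Subtype.val) (this.subset ?_)
        Subtype.val_injective.injOn
      rintro _ ⟨a, ha, rfl⟩
      exact ha)
    (by rw [hcard]; exact hD.trans_le hcofle)
  have hcard2 : Cardinal.mk M = Cardinal.mk D := hM.trans hcard
  obtain ⟨φ⟩ := Cardinal.eq.1 hcard2
  refine ⟨fun a => W (φ.symm a).1, fun a => (hW _).1, fun a => (hW _).2, ?_⟩
  intro a b hab
  exact hdis (φ.symm a).2 (φ.symm b).2 (fun h => hab (φ.symm.injective (Subtype.ext h)))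

end Pool.Agent.H47.CP
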