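import Mathlib
import Pool.Agent.H47.CP.Defs
import Pool.Agent.H60.CP.CPA
import Pool.Agent.H47.CP.CPC

set_option autoImplicit false

namespace Pool.Agent.H47.CP

/-- `V` has a family of pairwise disjoint nonempty open subsets indexed by `K`. -/
def Fam {Y : Type} [TopologicalSpace Y] (K : Type) (V : Set Y) : Prop :=
  ∃ W : K → Set Y, (∀ a, IsOpen (W a)) ∧ (∀ a, (W a).Nonempty) ∧ (∀ a, W a ⊆ V) ∧
    Pairwise (fun a b => Disjoint (W a) (W b))

theorem Fam.comp {Y : Type} [TopologicalSpace Y] {K K' : Type} {V : Set Y} (h : Fam K V)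
    (f : K' → K) (hf : Function.Injective f) : Fam K' V := by
  obtain ⟨W, h1, h2, h3, h4⟩ := h
  exact ⟨fun a => W (f a), fun a => h1 _, fun a => h2 _, fun a => h3 _,
    fun a b hab => h4 (fun h => hab (hf h))⟩

theorem Fam.of_card {Y : Type} [TopologicalSpace Y] {K K' : Type} {V : Set Y} (h : Fam K V)
    (hle : Cardinal.mk K' ≤ Cardinal.mk K) : Fam K' V := by
  obtain ⟨f⟩ := Cardinal.le_def _ _ |>.1 hle
  exact h.comp f f.injective

/-- in a homogeneous compactum all nonempty open sets have the same families -/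
theorem fam_open {Y : Type} [TopologicalSpace Y] [CompactSpace Y]
    (hom : ∀ y y' : Y, ∃ h : Y ≃ₜ Y, h y = y') {K : Type} [Infinite K]
    (hK : Fam K (Set.univ : Set Y)) (V : Set Y) (hV : IsOpen V) (hVne : V.Nonempty) :
    Fam K V := by
  classical
  obtain ⟨v, hv⟩ := hVne
  choose h hh using fun y => hom v y
  -- finitely many translates cover
  obtain ⟨t, ht⟩ := isCompact_univ.elim_finite_subcover (fun y : Y => (h y).symm ⁻¹' V)
    (fun y => hV.preimage (h y).symm.continuous) (by
      intro y _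
      rw [Set.mem_iUnion]
      refine ⟨y, ?_⟩
      have : (h y).symm y = v := by
        rw [Homeomorph.symm_apply_eq]; exact (hh y).symm
      simpa [this] using hv)
  obtain ⟨W, h1, h2, -, h4⟩ := hK
  have hc : ∀ a : K, ∃ y : t, ((W a) ∩ (h y.1).symm ⁻¹' V).Nonempty := by
    intro a
    obtain ⟨x, hx⟩ := h2 a
    have := ht (Set.mem_univ x)
    simp only [Set.mem_iUnion] at this
    obtain ⟨y, hy, hxy⟩ := this
    exact ⟨⟨y, hy⟩, x, hx, hxy⟩
  choose c hc using hc
  have hKc : Cardinal.aleph0 ≤ Cardinal.mk K := Cardinal.aleph0_le_mk K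
  obtain ⟨y, hy⟩ := Cardinal.infinite_pigeonhole c hKc (by
    have h5 : Cardinal.aleph0 ≤ (Cardinal.mk K).ord.cof :=
      Ordinal.aleph0_le_cof_iff.2 (Ordinal.one_lt_cof_iff.2 (Cardinal.isSuccLimit_ord hKc))
    exact (Cardinal.mk_lt_aleph0).trans_le h5)
  obtain ⟨φ⟩ := Cardinal.eq.1 hy
  -- pull back
  refine ⟨fun a => h y.1 ⁻¹' (W (φ.symm a).1) ∩ V, fun a => ?_, fun a => ?_, fun a => ?_, ?_⟩
  · exact ((h1 _).preimage (h y.1).continuous).inter hV
  · obtain ⟨x, hx, hx2⟩ := hc (φ.symm a).1
    have h6 : c (φ.symm a).1 = y := (φ.symm a).2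
    rw [h6] at hx2
    exact ⟨(h y.1).symm x, by simpa using hx, hx2⟩
  · exact Set.inter_subset_right
  · intro a b hab
    have h7 : (φ.symm a).1 ≠ (φ.symm b).1 :=
      fun h => hab (φ.symm.injective (Subtype.ext h))
    exact ((h4 h7).preimage (h y.1)).mono Set.inter_subset_left Set.inter_subset_left

/-- continuous injection, arbitrary uncountable cardinality -/
theorem cellular_of_injection_hom {Y : Type} [TopologicalSpace Y] [CompactSpace Y] [T2Space Y]
    (hom : ∀ y y' : Y, ∃ h : Y ≃ₜ Y, h y = y')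
    {D : Type} [TopologicalSpace D] [DiscreteTopology D]
    (hD : Cardinal.aleph0 < Cardinal.mk D)
    (e : Cp (OnePoint D) → Cp Y) (he : Continuous e) (hinj : Function.Injective e) :
    Fam D (Set.univ : Set Y) := by
  classical
  -- the functions
  set g : D → Y → ℝ := fun a y => |(e (delta a)).1 y - (e (zeroF D)).1 y| with hg
  have hgc : ∀ a, Continuous (g a) := fun a =>
    ((e (delta a)).2.sub (e (zeroF D)).2).abs
  have hfin : ∀ (y : Y) (ε : ℝ), 0 < ε → {a | ε < g a y}.Finite := by
    intro y ε hε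
    have h1 : Filter.Tendsto (fun a : D => e (delta a)) Filter.cofinite
        (nhds (e (zeroF D))) := (he.tendsto _).comp tendsto_delta
    rw [tendsto_subtype_rng, tendsto_pi_nhds] at h1
    have h2 := h1 y
    rw [Metric.tendsto_nhds] at h2
    have h3 := h2 ε hε
    rw [Filter.eventually_cofinite] at h3
    refine h3.subset ?_
    intro a ha
    simp only [Set.mem_ofPred_eq, not_lt, Real.dist_eq]
    exact le_of_lt ha
  have hne : ∀ a : D, ∃ (n : ℕ) (y : Y), 1 / ((n : ℝ) + 1) < g a y := by
    intro a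
    have hd : delta a ≠ zeroF D := by
      intro h
      have := congrFun (congrArg Subtype.val h) (a : OnePoint D)
      simp [delta, zeroF] at this
    have he' : e (delta a) ≠ e (zeroF D) := fun h => hd (hinj h)
    have : ∃ y, (e (delta a)).1 y ≠ (e (zeroF D)).1 y := by
      by_contra hcon
      push Not at hcon
      exact he' (Subtype.ext (funext hcon))
    obtain ⟨y, hy⟩ := this
    have hpos : 0 < g a y := abs_pos.2 (sub_ne_zero.2 hy)
    obtain ⟨n, hn⟩ := exists_nat_one_div_lt hpos
    exact ⟨n, y, hn⟩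
  choose N yy hN using hne
  -- families for the uncountable fibres
  have key : ∀ n : ℕ, Cardinal.aleph0 < Cardinal.mk (N ⁻¹' {n}) →
      Fam (N ⁻¹' {n}) (Set.univ : Set Y) := by
    intro n hlt
    obtain ⟨M, W, hM, hW, hdis⟩ := disjoint_of_pointFinite (Y := Y) (D := N ⁻¹' {n})
      (fun a => {y | 1 / ((n : ℝ) + 1) < g a.1 y})
      (fun a => isOpen_lt continuous_const (hgc a.1))
      (fun a => ⟨yy a.1, by
        have h1 := hN a.1
        have h2 : N a.1 = n := a.2
        rw [h2] at h1
        exact h1⟩)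
      (fun y => by
        have := hfin y (1 / ((n : ℝ) + 1)) Nat.one_div_pos_of_nat
        refine Set.Finite.of_finite_image (f := Subtype.val) (this.subset ?_)
          Subtype.val_injective.injOn
        rintro _ ⟨a, ha, rfl⟩
        exact ha)
      hlt
    obtain ⟨φ⟩ := Cardinal.eq.1 hM
    refine ⟨fun a => W (φ.symm a).1, fun a => (hW _).1, fun a => (hW _).2,
      fun a => Set.subset_univ _, ?_⟩
    intro a b hab
    exact hdis (φ.symm a).2 (φ.symm b).2 (fun h => hab (φ.symm.injective (Subtype.ext h)))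
  -- `Y` is infinite
  have hYinf : Infinite Y := by
    have huncD : Uncountable D := Cardinal.aleph0_lt_mk_iff.1 hD
    obtain ⟨n, hn⟩ : ∃ n : ℕ, Cardinal.aleph0 < Cardinal.mk (N ⁻¹' {n}) := by
      by_contra hcon
      push Not at hcon
      have : Countable D := by
        have h8 : (Set.univ : Set D).Countable := by
          have : (Set.univ : Set D) = ⋃ n, N ⁻¹' {n} := by
            ext a; simp
          rw [this]
          exact Set.countable_iUnion (fun n => Cardinal.le_aleph0_iff_set_countable.1 (hcon n))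
        exact Set.countable_univ_iff.1 h8
      exact not_countable this
    obtain ⟨W, h1, h2, -, h4⟩ := key n hn
    have : Infinite (N ⁻¹' {n}) := Cardinal.infinite_iff.2 hn.le
    choose y hy using h2
    refine Infinite.of_injective y ?_
    intro a b hab
    by_contra hne
    exact Set.disjoint_left.1 (h4 hne) (hy a) (hab ▸ hy b)
  obtain ⟨U, hU1, hU2, hU3⟩ := exists_seq_infinite_isOpen_pairwise_disjoint Y
  have hN' : Fam ℕ (Set.univ : Set Y) :=
    ⟨U, hU2, fun n => (hU1 n).nonempty, fun n => Set.subset_univ _, hU3⟩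
  have all : ∀ n : ℕ, Fam (N ⁻¹' {n}) (U n) := by
    intro n
    by_cases hlt : Cardinal.aleph0 < Cardinal.mk (N ⁻¹' {n})
    · have : Infinite (N ⁻¹' {n}) := Cardinal.infinite_iff.2 hlt.le
      exact fam_open hom (key n hlt) (U n) (hU2 n) (hU1 n).nonempty
    · push Not at hlt
      exact (fam_open hom hN' (U n) (hU2 n) (hU1 n).nonempty).of_card (by simpa using hlt)
  choose W h1 h2 h3 h4 using all
  refine ⟨fun a => W (N a) ⟨a, rfl⟩, fun a => h1 _ _, fun a => h2 _ _,
    fun a => Set.subset_univ _, ?_⟩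
  intro a b hab
  by_cases hNab : N a = N b
  · have h9 : W (N b) ⟨b, rfl⟩ = W (N a) ⟨b, hNab.symm⟩ := by
      congr 1
      · exact hNab.symm
      · congr 1 <;> simp [hNab]
    show Disjoint (W (N a) ⟨a, rfl⟩) (W (N b) ⟨b, rfl⟩)
    rw [h9]
    exact h4 (N a) (fun h => hab (congrArg Subtype.val h))
  · exact (hU3 hNab).mono (h3 _ _) (h3 _ _)

/-- the Cantor space is homogeneous -/
theorem cantor_homogeneous (y y' : ℕ → Bool) : ∃ h : (ℕ → Bool) ≃ₜ (ℕ → Bool), h y = y' := by
  refine ⟨Homeomorph.piCongrRight (fun n =>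
    ⟨Equiv.swap (y n) (y' n), continuous_of_discreteTopology, continuous_of_discreteTopology⟩), ?_⟩
  funext n
  simp [Homeomorph.piCongrRight]

theorem fam_cantor {D : Type} (hD : Cardinal.mk D ≤ Cardinal.aleph0) :
    Fam D (Set.univ : Set (ℕ → Bool)) := by
  obtain ⟨U, hU1, hU2, hU3⟩ := exists_seq_infinite_isOpen_pairwise_disjoint (ℕ → Bool)
  have hN' : Fam ℕ (Set.univ : Set (ℕ → Bool)) :=
    ⟨U, hU2, fun n => (hU1 n).nonempty, fun n => Set.subset_univ _, hU3⟩
  exact hN'.of_card (by simpa using hD)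

end Pool.Agent.H47.CP
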