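import Mathlib
import Pool.Agent.H47.CP.Defs

/-! Operators given by finitely supported measures (the construction of `T` for `OnePoint D` is the one
of helper55, `Pool.Agent.H55.CP.CPB`). -/

set_option autoImplicit false

open Filter Topology Set
open scoped Uniformity

namespace Pool.Agent.H47.CP

/-- operators given by finitely supported measures of norm at most `1`, among them the Dirac measures -/
def Ext (X Y : Type) [TopologicalSpace X] [TopologicalSpace Y] : Prop :=
  ∃ T : (X → ℝ) → (Y → ℝ), (∀ f, Continuous f → Continuous (T f)) ∧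
    (∀ y, ∃ (S : Finset X) (c : X → ℝ), ∑ x ∈ S, |c x| ≤ 1 ∧ ∀ f : X → ℝ, T f y = ∑ x ∈ S, c x * f x) ∧
    (∀ x, ∃ y, ∀ f : X → ℝ, T f y = f x)

theorem ext_onePoint {Y : Type} [TopologicalSpace Y] [CompactSpace Y] [T2Space Y]
    {D : Type} [TopologicalSpace D] [DiscreteTopology D] [Infinite D] (U : D → Set Y)
    (hU : ∀ a, IsOpen (U a)) (hne : ∀ a, (U a).Nonempty)
    (hdis : Pairwise (fun a b => Disjoint (U a) (U b))) :
    Ext (OnePoint D) Y := by
  classical
  choose y hy using hne
  have huniq : ∀ a b z, z ∈ U a → z ∈ U b → a = b := by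
    intro a b z ha hb
    by_contra hab
    exact Set.disjoint_left.1 (hdis hab) ha hb
  have hury : ∀ a, ∃ u : C(Y, ℝ), (∀ z, z ∉ U a → u z = 0) ∧ u (y a) = 1 ∧
      ∀ z, 0 ≤ u z ∧ u z ≤ 1 := by
    intro a
    obtain ⟨u, h0, h1, h2⟩ := exists_continuous_zero_one_of_isClosed (hU a).isClosed_compl
      (isClosed_singleton (x := y a)) (by
        rw [Set.disjoint_singleton_right]
        exact fun h => h (hy a))
    exact ⟨u, fun z hz => h0 hz, h1 (Set.mem_singleton _), fun z => h2 z⟩
  choose u hu0 hu1 hu2 using hury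
  -- the map
  let ev : (OnePoint D → ℝ) → Y → ℝ := fun f z =>
    if h : ∃ a, z ∈ U a then f OnePoint.infty + (f ((h.choose : D) : OnePoint D) - f OnePoint.infty) * u h.choose z
    else f OnePoint.infty
  have ev1 : ∀ (f : OnePoint D → ℝ) (z : Y) (a : D), z ∈ U a →
      ev f z = f OnePoint.infty + (f (a : OnePoint D) - f OnePoint.infty) * u a z := by
    intro f z a hz
    have h : ∃ a, z ∈ U a := ⟨a, hz⟩
    have hch : h.choose = a := huniq _ _ z h.choose_spec hz
    simp only [ev, dif_pos h, hch]
  have ev2 : ∀ (f : OnePoint D → ℝ) (z : Y), (∀ a, z ∉ U a) → ev f z = f OnePoint.infty := by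
    intro f z hz
    have h : ¬ ∃ a, z ∈ U a := fun ⟨a, ha⟩ => hz a ha
    simp only [ev, dif_neg h]
  -- continuity of the images
  have hcont : ∀ f : OnePoint D → ℝ, Continuous f → Continuous (ev f) := by
    intro f hf
    have htend : Tendsto (fun a : D => f (a : OnePoint D)) cofinite (𝓝 (f OnePoint.infty)) := by
      have h1 := (OnePoint.continuousAt_infty' (f := f)).1 hf.continuousAt
      rw [Filter.coclosedCompact_eq_cocompact, Filter.cocompact_eq_cofinite] at h1
      exact h1
    apply continuous_of_uniform_approx_of_continuous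
    intro s hs
    obtain ⟨ε, hε, hεs⟩ := Metric.mem_uniformity_dist.1 hs
    have hfin : {a : D | ¬ dist (f (a : OnePoint D)) (f OnePoint.infty) < ε}.Finite := by
      have := htend (Metric.ball_mem_nhds (f OnePoint.infty) hε)
      rw [Filter.mem_map, Filter.mem_cofinite] at this
      exact this
    refine ⟨fun z => f OnePoint.infty + ∑ a ∈ hfin.toFinset,
      (f (a : OnePoint D) - f OnePoint.infty) * u a z, ?_, fun z => ?_⟩
    · refine continuous_const.add (continuous_finsetSum _ fun a _ => ?_)
      exact continuous_const.mul (u a).continuous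
    · apply hεs
      change dist (ev f z) (f OnePoint.infty + ∑ a ∈ hfin.toFinset,
        (f (a : OnePoint D) - f OnePoint.infty) * u a z) < ε
      by_cases hz : ∃ b, z ∈ U b
      · obtain ⟨b, hb⟩ := hz
        rw [ev1 f z b hb]
        have hother : ∀ a, a ≠ b → (f (a : OnePoint D) - f OnePoint.infty) * u a z = 0 := by
          intro a hab
          rw [hu0 a z (fun ha => hab (huniq a b z ha hb)), mul_zero]
        by_cases hbT : b ∈ hfin.toFinset
        · rw [Finset.sum_eq_single b (fun a _ hab => hother a hab) (fun h => absurd hbT h),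
            dist_self]
          exact hε
        · rw [Finset.sum_eq_zero (fun a ha => hother a (fun h => hbT (h ▸ ha))), add_zero,
            Real.dist_eq]
          have hb2 : dist (f (b : OnePoint D)) (f OnePoint.infty) < ε := by
            by_contra hcon
            exact hbT (hfin.mem_toFinset.2 hcon)
          rw [Real.dist_eq] at hb2
          have h3 : |f OnePoint.infty + (f (b : OnePoint D) - f OnePoint.infty) * u b z -
              f OnePoint.infty| = |f (b : OnePoint D) - f OnePoint.infty| * |u b z| := by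
            rw [← abs_mul]; congr 1; ring
          rw [h3]
          have h4 : |u b z| ≤ 1 := by
            rw [abs_of_nonneg (hu2 b z).1]; exact (hu2 b z).2
          calc |f (b : OnePoint D) - f OnePoint.infty| * |u b z|
              ≤ |f (b : OnePoint D) - f OnePoint.infty| * 1 :=
                mul_le_mul_of_nonneg_left h4 (abs_nonneg _)
            _ < ε := by rw [mul_one]; exact hb2
      · have hz' : ∀ a, z ∉ U a := fun a ha => hz ⟨a, ha⟩
        rw [ev2 f z hz', Finset.sum_eq_zero (fun a _ => by rw [hu0 a z (hz' a), mul_zero]),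
          add_zero, dist_self]
        exact hε
  -- the accumulation point
  have hyinj : Function.Injective y := by
    intro a b hab
    exact huniq a b (y a) (hy a) (hab ▸ hy b)
  obtain ⟨yinf, hacc⟩ := (Set.infinite_range_of_injective hyinj).exists_accPt_principal
  rw [accPt_iff_nhds] at hacc
  have hyinf : ∀ b, yinf ∉ U b := by
    intro b hb
    by_cases heq : yinf = y b
    · obtain ⟨w, ⟨hw1, a, rfl⟩, hw2⟩ := hacc (U b) ((hU b).mem_nhds hb)
      have : a = b := huniq a b (y a) (hy a) hw1
      apply hw2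
      rw [this, heq]
    · obtain ⟨w, ⟨hw1, a, rfl⟩, hw2⟩ := hacc (U b ∩ {y b}ᶜ)
        (((hU b).inter isOpen_compl_singleton).mem_nhds ⟨hb, heq⟩)
      have : a = b := huniq a b (y a) (hy a) hw1.1
      apply hw1.2
      rw [this]
      exact Set.mem_singleton _
  refine ⟨ev, hcont, fun z => ?_, fun x => ?_⟩
  · by_cases hz : ∃ b, z ∈ U b
    · obtain ⟨b, hb⟩ := hz
      refine ⟨{OnePoint.infty, (b : OnePoint D)}, fun x => if x = OnePoint.infty then 1 - u b z else u b z, ?_, fun f => ?_⟩
      · rw [Finset.sum_pair (OnePoint.infty_ne_coe b)]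
        simp only [if_true, OnePoint.coe_ne_infty, if_false]
        rw [abs_of_nonneg (by linarith [(hu2 b z).2]), abs_of_nonneg (hu2 b z).1]
        linarith
      · rw [Finset.sum_pair (OnePoint.infty_ne_coe b), ev1 f z b hb]
        simp only [if_true, OnePoint.coe_ne_infty, if_false]
        ring
    · have hz' : ∀ a, z ∉ U a := fun a ha => hz ⟨a, ha⟩
      refine ⟨{OnePoint.infty}, fun _ => 1, by simp, fun f => ?_⟩
      rw [ev2 f z hz']; simp
  · induction x using OnePoint.rec with
    | infty => exact ⟨yinf, fun f => ev2 f yinf hyinf⟩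
    | coe a =>
      refine ⟨y a, fun f => ?_⟩
      rw [ev1 f (y a) a (hy a), hu1 a]
      ring

theorem Ext.embedding {X Y : Type} [TopologicalSpace X] [TopologicalSpace Y] (h : Ext X Y) :
    ∃ e : Cp X → Cp Y, Topology.IsEmbedding e ∧ IsLin e := by
  obtain ⟨T, h1, h2, h3⟩ := h
  choose S c hc hT using h2
  choose p hp using h3
  let e : Cp X → Cp Y := fun f => ⟨T f.1, h1 f.1 f.2⟩
  refine ⟨e, ?_, ?_⟩
  · have hece : Continuous e := by
      refine Continuous.subtype_mk (continuous_pi fun y => ?_) _
      have : (fun f : Cp X => T f.1 y) = fun f : Cp X => ∑ x ∈ S y, c y x * f.1 x := by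
        funext f; exact hT y f.1
      rw [this]
      refine continuous_finsetSum _ fun x _ => ?_
      exact continuous_const.mul ((continuous_apply _).comp continuous_subtype_val)
    have hg : Continuous (fun F : Cp Y => fun x : X => F.1 (p x)) :=
      continuous_pi fun x => (continuous_apply (p x)).comp continuous_subtype_val
    refine Topology.IsEmbedding.of_comp hece hg ?_
    have hcomp : (fun F : Cp Y => fun x : X => F.1 (p x)) ∘ e =
        (Subtype.val : Cp X → (X → ℝ)) := by
      funext f
      funext x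
      exact hp x f.1
    rw [hcomp]
    exact Topology.IsEmbedding.subtypeVal
  · intro a b f g h hlin y
    change T h.1 y = a * T f.1 y + b * T g.1 y
    rw [hT, hT, hT, Finset.mul_sum, Finset.mul_sum, ← Finset.sum_add_distrib]
    exact Finset.sum_congr rfl fun x _ => by rw [hlin]; ring

/-- joint continuity with a parameter -/
theorem joint {X Y Z : Type} [TopologicalSpace X] [TopologicalSpace Y] [TopologicalSpace Z]
    [CompactSpace X] [CompactSpace Y] [T2Space Y] (T : (X → ℝ) → (Y → ℝ))
    (h1 : ∀ f, Continuous f → Continuous (T f))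
    (h2 : ∀ y, ∃ (S : Finset X) (c : X → ℝ), ∑ x ∈ S, |c x| ≤ 1 ∧
      ∀ f : X → ℝ, T f y = ∑ x ∈ S, c x * f x)
    (f : Z × X → ℝ) (hf : Continuous f) :
    Continuous (fun w : Z × Y => T (fun x => f (w.1, x)) w.2) := by
  let Tc : C(X, ℝ) → C(Y, ℝ) := fun g => ⟨T g, h1 g g.continuous⟩
  have hTc : Continuous Tc := by
    refine (LipschitzWith.mk_one ?_).continuous
    intro g g'
    rw [ContinuousMap.dist_le dist_nonneg]
    intro y
    obtain ⟨S, c, hc, hT⟩ := h2 y
    change dist (T g y) (T g' y) ≤ _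
    rw [hT, hT, Real.dist_eq, ← Finset.sum_sub_distrib]
    calc |∑ x ∈ S, (c x * g x - c x * g' x)| ≤ ∑ x ∈ S, |c x * g x - c x * g' x| :=
          Finset.abs_sum_le_sum_abs _ _
      _ ≤ ∑ x ∈ S, |c x| * dist g g' := by
          refine Finset.sum_le_sum fun x _ => ?_
          rw [← mul_sub, abs_mul]
          refine mul_le_mul_of_nonneg_left ?_ (abs_nonneg _)
          rw [← Real.dist_eq]
          exact ContinuousMap.dist_apply_le_dist x
      _ = (∑ x ∈ S, |c x|) * dist g g' := by rw [Finset.sum_mul]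
      _ ≤ 1 * dist g g' := mul_le_mul_of_nonneg_right hc dist_nonneg
      _ = dist g g' := one_mul _
  let F : C(Z × X, ℝ) := ⟨f, hf⟩
  let G : C(Z, C(Y, ℝ)) := ⟨fun z => Tc (F.curry z), hTc.comp F.curry.continuous⟩
  have := ContinuousMap.continuous_uncurry_of_continuous G
  exact this

theorem Ext.prod {X₁ X₂ Y₁ Y₂ : Type} [TopologicalSpace X₁] [TopologicalSpace X₂]
    [TopologicalSpace Y₁] [TopologicalSpace Y₂] [CompactSpace X₁] [CompactSpace X₂]
    [CompactSpace Y₁] [CompactSpace Y₂] [T2Space Y₁] [T2Space Y₂]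
    (h : Ext X₁ Y₁) (h' : Ext X₂ Y₂) : Ext (X₁ × X₂) (Y₁ × Y₂) := by
  obtain ⟨T₁, h1, h2, h3⟩ := h
  obtain ⟨T₂, k1, k2, k3⟩ := h'
  refine ⟨fun f y => T₂ (fun x₂ => T₁ (fun x₁ => f (x₁, x₂)) y.1) y.2, fun f hf => ?_,
    fun y => ?_, fun x => ?_⟩
  · have j1 := joint T₁ h1 h2 (fun w : X₂ × X₁ => f (w.2, w.1)) (by fun_prop)
    have j2 := joint T₂ k1 k2 (fun w : Y₁ × X₂ => T₁ (fun x₁ => f (x₁, w.2)) w.1)
      (j1.comp continuous_swap)
    exact j2
  · obtain ⟨S₁, c₁, hc₁, hT₁⟩ := h2 y.1
    obtain ⟨S₂, c₂, hc₂, hT₂⟩ := k2 y.2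
    refine ⟨S₁ ×ˢ S₂, fun x => c₁ x.1 * c₂ x.2, ?_, fun f => ?_⟩
    · simp only [abs_mul]
      rw [Finset.sum_product]
      simp only
      rw [← Finset.sum_mul_sum]
      have := Finset.sum_nonneg (s := S₂) (f := fun x => |c₂ x|) (fun _ _ => abs_nonneg _)
      have := Finset.sum_nonneg (s := S₁) (f := fun x => |c₁ x|) (fun _ _ => abs_nonneg _)
      nlinarith
    · simp only [hT₁, hT₂]
      rw [Finset.sum_product_right]
      refine Finset.sum_congr rfl fun x₂ _ => ?_
      rw [Finset.mul_sum]
      exact Finset.sum_congr rfl fun x₁ _ => by ring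
  · obtain ⟨y₁, hy₁⟩ := h3 x.1
    obtain ⟨y₂, hy₂⟩ := k3 x.2
    exact ⟨(y₁, y₂), fun f => by simp only [hy₂, hy₁]⟩

/-- continuous surjections give linear embeddings -/
theorem surj_embedding {X Z : Type} [TopologicalSpace X] [TopologicalSpace Z] (π : Z → X)
    (hπ : Continuous π) (hs : Function.Surjective π) :
    ∃ e : Cp X → Cp Z, Topology.IsEmbedding e ∧ IsLin e := by
  let e : Cp X → Cp Z := fun f => ⟨fun z => f.1 (π z), f.2.comp hπ⟩
  choose σ hσ using hs
  refine ⟨e, ?_, ?_⟩
  · have hece : Continuous e := by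
      refine Continuous.subtype_mk (continuous_pi fun z => ?_) _
      exact (continuous_apply (π z)).comp continuous_subtype_val
    have hg : Continuous (fun F : Cp Z => fun x : X => F.1 (σ x)) :=
      continuous_pi fun x => (continuous_apply (σ x)).comp continuous_subtype_val
    refine Topology.IsEmbedding.of_comp hece hg ?_
    have hcomp : (fun F : Cp Z => fun x : X => F.1 (σ x)) ∘ e =
        (Subtype.val : Cp X → (X → ℝ)) := by
      funext f
      funext x
      change f.1 (π (σ x)) = f.1 x
      rw [hσ]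
    rw [hcomp]
    exact Topology.IsEmbedding.subtypeVal
  · intro a b f g h hlin z
    exact hlin (π z)

theorem lin_comp {X Y Z : Type} [TopologicalSpace X] [TopologicalSpace Y] [TopologicalSpace Z]
    (e : Cp X → Cp Y) (e' : Cp Y → Cp Z) (h : IsLin e) (h' : IsLin e') : IsLin (e' ∘ e) := by
  intro a b f g k hlin z
  exact h' a b (e f) (e g) (e k) (h a b f g k hlin) z

/-- finite powers -/
theorem powers {X Y : Type} [TopologicalSpace X] [TopologicalSpace Y] [CompactSpace X] [CompactSpace Y]
    [T2Space Y] (hom : ∀ y y' : Y, ∃ h : Y ≃ₜ Y, h y = y') (h : Ext X Y) (n : ℕ) :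
    ∃ (Z W : Type) (_ : TopologicalSpace Z) (_ : TopologicalSpace W), CompactSpace Z ∧
      CompactSpace W ∧ T2Space W ∧ (∀ y y' : W, ∃ h : W ≃ₜ W, h y = y') ∧ Ext Z W ∧
      ∃ π : Z → (Fin n → X), Continuous π ∧ Function.Surjective π := by
  induction n with
  | zero =>
    refine ⟨Unit, Unit, inferInstance, inferInstance, inferInstance, inferInstance, inferInstance,
      fun y y' => ⟨Homeomorph.refl _, rfl⟩, ⟨id, fun f hf => hf, fun y => ⟨{y}, fun _ => 1, by simp,
        by simp⟩, fun x => ⟨x, fun f => rfl⟩⟩, fun _ => Fin.elim0, continuous_const, ?_⟩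
    intro v
    exact ⟨(), Subsingleton.elim _ _⟩
  | succ n ih =>
    obtain ⟨Z, W, tZ, tW, c1, c2, t2, hW, hE, π, hπ, hπs⟩ := ih
    refine ⟨X × Z, Y × W, instTopologicalSpaceProd, instTopologicalSpaceProd, inferInstance, inferInstance, inferInstance,
      ?_, h.prod hE, fun w => Fin.cons w.1 (π w.2), ?_, ?_⟩
    · rintro ⟨a, b⟩ ⟨a', b'⟩
      obtain ⟨g, hg⟩ := hom a a'
      obtain ⟨k, hk⟩ := hW b b'
      exact ⟨g.prodCongr k, by simp [hg, hk]⟩
    · refine continuous_pi fun i => ?_
      refine Fin.cases ?_ (fun j => ?_) i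
      · simpa using continuous_fst
      · have h5 : Continuous (fun w : X × Z => π w.2 j) :=
          (continuous_apply j).comp (hπ.comp continuous_snd)
        simpa using h5
    · intro v
      obtain ⟨z, hz⟩ := hπs (Fin.tail v)
      exact ⟨(v 0, z), by simp [hz]⟩

end Pool.Agent.H47.CP
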